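import Pool.Agent.H75C.HY.TR

set_option autoImplicit false

/-!
# A model from a certificate (statement C4)
-/

namespace Pool.Agent.Helper82.TRC

open Pool.Agent.NPC Pool.Agent.H75C.HY Pool.Agent.H75C.HY.TR

/-! ### Pairs that can be realised -/

section defs
variable (𝔅 : Base) (bd : Cl → List ℕ → Fls → Prop) (J : List Key) (SC : List Sp)

def GG (Z : List ℕ) (m : Fls) : Prop := OKc 𝔅 J SC Z m ∧ ∃ n, Gd 𝔅 bd J SC n Z m

/-- allowed ordinary clusters above -/
structure Ch (Z : List ℕ) (m : Fls) (s : Sp) : Prop where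
  nn : s.1.2.1.2.2 = []
  nf : s.1.2.2 = []
  hZ : ∀ z ∈ s.2.1, z ∈ Z
  hm : ∀ f ∈ s.2.2, f ∈ m
  loc : Loc 𝔅 J s.1 s.2.2 m
  gg : GG 𝔅 bd J SC s.2.1 s.2.2

/-- the last cluster of a path that starts in the special cluster `j` -/
def top (j : ℕ) : List Sp → Sp
  | [] => sp SC j
  | s :: _ => s

/-- valid paths -/
def Va (j : ℕ) : List Sp → Prop
  | [] => j < SC.length
  | s :: p => Ch 𝔅 bd J SC (top SC j p).2.1 (top SC j p).2.2 s ∧ Va j p

/-- the node `(j', p')` is above `(j, p)` -/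
def Ab (j : ℕ) (p : List Sp) (j' : ℕ) (p' : List Sp) : Prop :=
  (j = j' ∧ p <:+ p' ∧ p ≠ p') ∨ j' ∈ (top SC j p).2.1

abbrev St : Type := Option (ℕ × List Sp × ℕ)

/-- the relation -/
def Rr : St → St → Prop
  | some (j, p, v), some (j', p', v') => Va 𝔅 bd J SC j p ∧ v < N (top SC j p).1 ∧
      Va 𝔅 bd J SC j' p' ∧ v' < N (top SC j' p').1 ∧
      ((j = j' ∧ p = p' ∧ (top SC j p).1.1 = true) ∨ Ab SC j p j' p')
  | none, _ => False
  | some _, none => False

/-- the propositions -/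
def Vv (i : ℕ) : St → Prop
  | some (j, p, v) => (i, v) ∈ (top SC j p).1.2.1.2.1
  | none => False

open Classical in
/-- the place of a name -/
noncomputable def plc (sel : Cl → List (ℕ × ℕ)) (i : ℕ) : St :=
  if h : ∃ j, j < SC.length ∧ lk (sel (cl SC j)) (N (cl SC j)) i < N (cl SC j) then
    some (h.choose, [], lk (sel (cl SC h.choose)) (N (cl SC h.choose)) i) else none

/-- the model -/
noncomputable abbrev MK : Model := ⟨St, Rr 𝔅 bd J SC, Vv SC, plc SC fun c => c.2.1.2.2⟩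

end defs

section
variable {𝔅 : Base} {bd : Cl → List ℕ → Fls → Prop} {J : List Key} {SC : List Sp}

theorem gd_congr {n : ℕ} {Z Z' : List ℕ} {m m' : Fls} (hZ : ∀ z, z ∈ Z ↔ z ∈ Z')
    (hm : ∀ f, f ∈ m ↔ f ∈ m') (h : Gd 𝔅 bd J SC (n + 1) Z m) : Gd 𝔅 bd J SC (n + 1) Z' m' := by
  intro ψ B b h1 h2 h3
  rcases h ψ B b h1 h2 ((hm _).2 h3) with ⟨i, hi, h4⟩ | ⟨c, Z1, m1, a1, a2, a3, a4, a5, a6, a7, a8, a9, a10⟩
  · exact Or.inl ⟨i, (hZ i).1 hi, h4⟩
  · refine Or.inr ⟨c, Z1, m1, a1, a2, a3, a4, fun z hz => (hZ z).1 (a5 z hz),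
      fun f hf => (hm f).1 (a6 f hf), a7, ?_, a9, ?_⟩
    · intro ψ' B' b' b1 b2 b3
      exact a8 ψ' B' b' b1 b2 (fun h => b3 ((hm _).1 h))
    · rcases a10 with ⟨b1, b2⟩ | h
      · exact Or.inl ⟨fun z hz => b1 z ((hZ z).2 hz), fun f hf => b2 f ((hm f).2 hf)⟩
      · exact Or.inr h

theorem gg_step {Z : List ℕ} {m : Fls} (h : GG 𝔅 bd J SC Z m) (ψ : Form 𝔅) (B : List ℕ)
    (b : Bool) (h1 : NoAt ψ) (h2 : (pr ψ, B) ∈ J) (h3 : ((pr ψ, B), b) ∈ m) :
    (∃ i ∈ Z, ∃ u < N (cl SC i), kv (cl SC i) (fl SC i) ψ B u = b) ∨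
      ∃ s : Sp, Ch 𝔅 bd J SC Z m s ∧ ∃ u < N s.1, kv s.1 s.2.2 ψ B u = b := by
  obtain ⟨hok, n, hn⟩ := h
  cases n with
  | zero => exact hn.elim
  | succ n =>
    rcases hn ψ B b h1 h2 h3 with h4 | ⟨c, Z1, m1, a1, a2, a3, a4, a5, a6, a7, a8, a9, a10⟩
    · exact Or.inl h4
    · refine Or.inr ⟨(c, Z1, m1), ⟨a3, a4, a5, a6, a8, a7, ?_⟩, a9⟩
      rcases a10 with ⟨b1, b2⟩ | h
      · exact ⟨n + 1, gd_congr (fun z => ⟨fun hz => b1 z hz, fun hz => a5 z hz⟩)
          (fun f => ⟨fun hf => b2 f hf, fun hf => a6 f hf⟩) hn⟩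
      · exact ⟨n, h⟩

theorem loc_mono {c : Cl} {mc m m' : Fls} (h : Loc 𝔅 J c mc m) (hm : ∀ f ∈ m, f ∈ m') :
    Loc 𝔅 J c mc m' := fun ψ B b h1 h2 h3 => h ψ B b h1 h2 fun h4 => h3 (hm _ h4)

theorem va_suffix {j : ℕ} {p p' : List Sp} (hp : p <:+ p') (h : Va 𝔅 bd J SC j p') :
    Va 𝔅 bd J SC j p ∧ (∀ z ∈ (top SC j p').2.1, z ∈ (top SC j p).2.1) ∧
      (∀ f ∈ (top SC j p').2.2, f ∈ (top SC j p).2.2) ∧
      (p ≠ p' → Loc 𝔅 J (top SC j p').1 (top SC j p').2.2 (top SC j p).2.2) := by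
  induction p' with
  | nil =>
    rw [List.suffix_nil] at hp
    subst hp
    exact ⟨h, fun z hz => hz, fun f hf => hf, fun h => absurd rfl h⟩
  | cons s q ih =>
    rcases List.suffix_cons_iff.1 hp with rfl | hq
    · exact ⟨h, fun z hz => hz, fun f hf => hf, fun h => absurd rfl h⟩
    · obtain ⟨i1, i2, i3, -⟩ := ih hq h.2
      exact ⟨i1, fun z hz => i2 z (h.1.hZ z hz), fun f hf => i3 f (h.1.hm f hf),
        fun _ => loc_mono h.1.loc i3⟩

theorem suffix_nil_left (p : List Sp) : [] <:+ p := List.nil_suffix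

variable {n : ℕ} {φ₀ : Form 𝔅} {v0 : ℕ}

theorem va_lt {j : ℕ} {p : List Sp} (h : Va 𝔅 bd J SC j p) : j < SC.length :=
  (va_suffix (suffix_nil_left p) h).1

theorem va_gg (hc : IsCert bd J SC n φ₀ v0) {j : ℕ} {p : List Sp} (h : Va 𝔅 bd J SC j p) :
    GG 𝔅 bd J SC (top SC j p).2.1 (top SC j p).2.2 := by
  cases p with
  | nil => exact ⟨hc.ok j h, n, hc.gd j h⟩
  | cons s p => exact h.1.gg

theorem sub_ab {j : ℕ} {p : List Sp} (h : Va 𝔅 bd J SC j p) :
    (∀ z ∈ (top SC j p).2.1, z ∈ ab SC j) ∧ (∀ f ∈ (top SC j p).2.2, f ∈ fl SC j) := by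
  obtain ⟨-, h1, h2, -⟩ := va_suffix (suffix_nil_left p) h
  exact ⟨h1, h2⟩

theorem ab_irr (hc : IsCert bd J SC n φ₀ v0) {j : ℕ} {p : List Sp} (h : Va 𝔅 bd J SC j p) :
    ¬ Ab SC j p j p := by
  rintro (⟨-, -, h1⟩ | h1)
  · exact h1 rfl
  · exact hc.irr j (va_lt h) ((sub_ab h).1 j h1)

theorem ab_trans (hc : IsCert bd J SC n φ₀ v0) {j j' j'' : ℕ} {p p' p'' : List Sp}
    (h : Va 𝔅 bd J SC j p) (h' : Va 𝔅 bd J SC j' p')
    (h1 : Ab SC j p j' p') (h2 : Ab SC j' p' j'' p'') : Ab SC j p j'' p'' := by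
  rcases h1 with ⟨rfl, s1, n1⟩ | h1
  · rcases h2 with ⟨rfl, s2, n2⟩ | h2
    · refine Or.inl ⟨rfl, s1.trans s2, ?_⟩
      rintro rfl
      exact n1 (List.IsSuffix.eq_of_length_le s1 s2.length_le)
    · exact Or.inr ((va_suffix s1 h').2.1 _ h2)
  · rcases h2 with ⟨rfl, s2, n2⟩ | h2
    · exact Or.inr h1
    · exact Or.inr (((va_gg hc h).1 j' h1).2.1 _ ((sub_ab h').1 _ h2))

theorem ab_loc (hc : IsCert bd J SC n φ₀ v0) {j j' : ℕ} {p p' : List Sp}
    (h : Va 𝔅 bd J SC j p) (h' : Va 𝔅 bd J SC j' p') (h1 : Ab SC j p j' p') :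
    Loc 𝔅 J (top SC j' p').1 (top SC j' p').2.2 (top SC j p).2.2 := by
  rcases h1 with ⟨rfl, s1, n1⟩ | h1
  · exact (va_suffix s1 h').2.2.2 n1
  · obtain ⟨-, -, o3, o4⟩ := (va_gg hc h).1 j' h1
    by_cases hp : p' = []
    · subst hp
      exact o4
    · exact loc_mono ((va_suffix (suffix_nil_left p') h').2.2.2 (Ne.symm hp)) o3

/-- the place of a name in a node -/
theorem plc_spec (sel : Cl → List (ℕ × ℕ))
    (hu : ∀ j < SC.length, ∀ j' < SC.length, j ≠ j' → ∀ i,
      ¬ (lk (sel (cl SC j)) (N (cl SC j)) i < N (cl SC j) ∧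
        lk (sel (cl SC j')) (N (cl SC j')) i < N (cl SC j')))
    (hs : ∀ Z m s, Ch 𝔅 bd J SC Z m s → sel s.1 = []) {j : ℕ} {p : List Sp}
    (h : Va 𝔅 bd J SC j p) (i : ℕ) {v : ℕ} (hv : v < N (top SC j p).1) :
    plc SC sel i = some (j, p, v) ↔ lk (sel (top SC j p).1) (N (top SC j p).1) i = v := by
  cases p with
  | nil =>
    show plc SC sel i = some (j, [], v) ↔ lk (sel (cl SC j)) (N (cl SC j)) i = v
    have hv' : v < N (cl SC j) := hv
    constructor
    · intro h1
      unfold plc at h1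
      split_ifs at h1 with h2
      rw [Option.some.injEq, Prod.mk.injEq, Prod.mk.injEq] at h1
      obtain ⟨h3, -, h4⟩ := h1
      rw [h3] at h4
      exact h4
    · intro h1
      have h2 : ∃ j, j < SC.length ∧ lk (sel (cl SC j)) (N (cl SC j)) i < N (cl SC j) :=
        ⟨j, h, by rw [h1]; exact hv'⟩
      unfold plc
      rw [dif_pos h2]
      have h3 : h2.choose = j := by
        by_contra hne
        exact hu _ h2.choose_spec.1 j h hne i ⟨h2.choose_spec.2, by rw [h1]; exact hv'⟩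
      rw [h3, h1]
  | cons s p =>
    have h1 : sel s.1 = [] := hs _ _ s h.1
    have h2 : lk (sel (top SC j (s :: p)).1) (N (top SC j (s :: p)).1) i =
        N (top SC j (s :: p)).1 := by
      show lk (sel s.1) (N s.1) i = N s.1
      rw [h1]
      rfl
    rw [h2]
    constructor
    · intro h3
      unfold plc at h3
      split_ifs at h3 with h4
      rw [Option.some.injEq, Prod.mk.injEq, Prod.mk.injEq] at h3
      exact absurd h3.2.1.symm (List.cons_ne_nil _ _)
    · intro h3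
      exact absurd h3 hv.ne'

theorem rr_trans (hc : IsCert bd J SC n φ₀ v0) : ∀ a b c : St, Rr 𝔅 bd J SC a b →
    Rr 𝔅 bd J SC b c → Rr 𝔅 bd J SC a c := by
  rintro (_ | ⟨j, p, v⟩) (_ | ⟨j', p', v'⟩) (_ | ⟨j'', p'', v''⟩) h1 h2
  any_goals exact h1.elim
  any_goals exact h2.elim
  obtain ⟨a1, a2, a3, a4, a5⟩ := h1
  obtain ⟨b1, b2, b3, b4, b5⟩ := h2
  refine ⟨a1, a2, b3, b4, ?_⟩
  rcases a5 with ⟨rfl, rfl, hr⟩ | a5
  · exact b5
  · rcases b5 with ⟨rfl, rfl, hr⟩ | b5
    · exact Or.inr a5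
    · exact Or.inr (ab_trans hc a1 a3 a5 b5)

/-- truth depends only on the visible values of the variables -/
theorem local_tv {K : Model} (hK : ∀ a b c, K.R a b → K.R b c → K.R a c) : ∀ ψ : Form 𝔅, NoAt ψ →
    ∀ (g g' : ℕ → K.W) (u : K.W), (∀ x w, (w = u ∨ K.R u w) → (w = g x ↔ w = g' x)) →
      tv K ψ g u = tv K ψ g' u := by
  intro ψ
  induction ψ with
  | prop i => intro _ g g' u _; rfl
  | nom i => intro _ g g' u _; rfl
  | var x =>
    intro _ g g' u h
    rw [Bool.eq_iff_iff]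
    simp only [tv, decide_eq_true_eq]
    exact h x u (Or.inl rfl)
  | app b φ ih =>
    intro hψ g g' u h
    rw [tv, tv]
    congr 1
    funext i
    exact ih i (hψ i) g g' u h
  | dia φ ih =>
    intro hψ g g' u h
    rw [Bool.eq_iff_iff]
    simp only [tv, decide_eq_true_eq]
    refine exists_congr fun v => and_congr_right fun hv => ?_
    rw [ih hψ g g' v fun x w hw => h x w (Or.inr ?_)]
    rcases hw with rfl | hw
    · exact hv
    · exact hK _ _ _ hv hw
  | box φ ih =>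
    intro hψ g g' u h
    rw [Bool.eq_iff_iff]
    simp only [tv, decide_eq_true_eq]
    refine forall_congr' fun v => imp_congr_right fun hv => ?_
    rw [ih hψ g g' v fun x w hw => h x w (Or.inr ?_)]
    rcases hw with rfl | hw
    · exact hv
    · exact hK _ _ _ hv hw
  | bind x φ ih =>
    intro hψ g g' u h
    rw [tv, tv]
    refine ih hψ _ _ u fun y w hw => ?_
    by_cases hy : y = x
    · subst hy
      rw [Function.update_self, Function.update_self]
    · rw [Function.update_of_ne hy, Function.update_of_ne hy]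
      exact h y w hw
  | atNom i φ _ => intro h; exact h.elim
  | atVar i φ _ => intro h; exact h.elim

/-- the free variables -/
noncomputable def g0 (SC : List Sp) : ℕ → St := plc SC fun c => c.2.2

/-- agreement of the assignments at the node `(j, p)` -/
structure Agr (SC : List Sp) (j : ℕ) (p : List Sp) (B : List ℕ) (g : ℕ → St) (e : ℕ → ℕ) :
    Prop where
  out : ∀ x, x ∉ B → g x = g0 SC x
  inn : ∀ x ∈ B, g x = none ∨ ∃ v, g x = some (j, p, v)
  loc : ∀ x, ∀ v < N (top SC j p).1, (some (j, p, v) = g x ↔ v = e x)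

theorem lk_dead (c : Cl) (B : List ℕ) (x : ℕ) :
    lk (envc c B) (N c) x = if x ∈ B then N c else lk c.2.2 (N c) x := by
  unfold envc
  induction B with
  | nil => simp
  | cons b B ih =>
    rw [List.map_cons, List.cons_append, lk]
    by_cases h : x = b
    · subst h
      simp
    · rw [if_neg h, ih]
      by_cases h2 : x ∈ B <;> simp [h, h2]

theorem agr_dead (hc : IsCert bd J SC n φ₀ v0) {j : ℕ} {p : List Sp} (h : Va 𝔅 bd J SC j p)
    (B : List ℕ) : Agr SC j p B (dg (g0 SC) none B)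
      (lk (envc (top SC j p).1 B) (N (top SC j p).1)) := by
  refine ⟨fun x hx => if_neg hx, fun x hx => Or.inl (if_pos hx), fun x v hv => ?_⟩
  rw [lk_dead]
  by_cases hx : x ∈ B
  · have h1 : dg (g0 SC) none B x = none := if_pos hx
    rw [h1, if_pos hx]
    exact ⟨fun h => by simp at h, fun h => absurd h hv.ne⟩
  · have h1 : dg (g0 SC) none B x = g0 SC x := if_neg hx
    rw [h1, if_neg hx, eq_comm, eq_comm (a := v)]
    exact plc_spec (fun c => c.2.2) hc.uF (fun Z m s hs => hs.nf) h x hv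

/-- the flags of a node are right -/
theorem flags (hc : IsCert bd J SC n φ₀ v0) {j : ℕ} {p : List Sp} (h : Va 𝔅 bd J SC j p)
    (ψ : Form 𝔅) (B : List ℕ) (b : Bool) (h1 : NoAt ψ) (h2 : (pr ψ, B) ∈ J) :
    fm (top SC j p).2.2 ψ B b ↔ ∃ j' p' v', Va 𝔅 bd J SC j' p' ∧ v' < N (top SC j' p').1 ∧
      Ab SC j p j' p' ∧ kv (top SC j' p').1 (top SC j' p').2.2 ψ B v' = b := by
  constructor
  · intro h3
    rcases gg_step (va_gg hc h) ψ B b h1 h2 h3 with ⟨i, hi, u, hu, h4⟩ | ⟨s, hs, u, hu, h4⟩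
    · exact ⟨i, [], u, ((va_gg hc h).1 i hi).1, hu, Or.inr hi, h4⟩
    · refine ⟨j, s :: p, u, ⟨hs, h⟩, hu, Or.inl ⟨rfl, List.suffix_cons s p, ?_⟩, h4⟩
      intro h5
      have := congrArg List.length h5
      simp at this
  · rintro ⟨j', p', v', a1, a2, a3, a4⟩
    by_contra h3
    exact ab_loc hc h a1 a3 ψ B b h1 h2 h3 v' a2 a4

theorem truth (hc : IsCert bd J SC n φ₀ v0) : ∀ ψ : Form 𝔅, NoAt ψ → ∀ B : List ℕ, Need J ψ B →
    ∀ (j : ℕ) (p : List Sp), Va 𝔅 bd J SC j p → ∀ (g : ℕ → St) (e : ℕ → ℕ), Agr SC j p B g e →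
      ∀ v < N (top SC j p).1, tv (MK 𝔅 bd J SC) ψ g (some (j, p, v)) =
        ce (KD (top SC j p).1.2.1) (CD (top SC j p).1.2.1) ((top SC j p).1.1 = true)
          (fm (top SC j p).2.2) ψ B e v := by
  intro ψ
  -- states above
  have key : ∀ ψ : Form 𝔅, NoAt ψ → ∀ B : List ℕ, (pr ψ, B) ∈ J →
      (∀ (j : ℕ) (p : List Sp), Va 𝔅 bd J SC j p → ∀ (g : ℕ → St) (e : ℕ → ℕ), Agr SC j p B g e →
        ∀ v < N (top SC j p).1, tv (MK 𝔅 bd J SC) ψ g (some (j, p, v)) =
          ce (KD (top SC j p).1.2.1) (CD (top SC j p).1.2.1) ((top SC j p).1.1 = true)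
            (fm (top SC j p).2.2) ψ B e v) →
      ∀ (j : ℕ) (p : List Sp), Va 𝔅 bd J SC j p → ∀ (g : ℕ → St) (e : ℕ → ℕ), Agr SC j p B g e →
        ∀ v < N (top SC j p).1, ∀ b : Bool,
          ((∃ u : St, Rr 𝔅 bd J SC (some (j, p, v)) u ∧ tv (MK 𝔅 bd J SC) ψ g u = b) ↔
            (fm (top SC j p).2.2 ψ B b ∨ ((top SC j p).1.1 = true ∧
              ∃ v' ∈ CD (top SC j p).1.2.1, ce (KD (top SC j p).1.2.1) (CD (top SC j p).1.2.1)
                ((top SC j p).1.1 = true) (fm (top SC j p).2.2) ψ B e v' = b))) := by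
    intro ψ hψ B hJ ih j p hp g e ha v hv b
    -- values above
    have habove : ∀ j' p' v', Va 𝔅 bd J SC j' p' → v' < N (top SC j' p').1 → Ab SC j p j' p' →
        tv (MK 𝔅 bd J SC) ψ g (some (j', p', v')) =
          kv (top SC j' p').1 (top SC j' p').2.2 ψ B v' := by
      intro j' p' v' hp' hv' hab
      have h1 : tv (MK 𝔅 bd J SC) ψ g (some (j', p', v')) =
          tv (MK 𝔅 bd J SC) ψ (dg (g0 SC) none B) (some (j', p', v')) := by
        refine local_tv (K := MK 𝔅 bd J SC) (rr_trans hc) ψ hψ g (dg (g0 SC) none B) _ ?_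
        intro x w hw
        by_cases hx : x ∈ B
        · have h2 : dg (g0 SC) none B x = none := if_pos hx
          have h3 : ∃ j'' p'' v'', w = some (j'', p'', v'') ∧ Va 𝔅 bd J SC j'' p'' ∧
              Ab SC j p j'' p'' := by
            rcases hw with rfl | hw
            · exact ⟨j', p', v', rfl, hp', hab⟩
            · rcases w with _ | ⟨j'', p'', v''⟩
              · exact hw.elim
              · obtain ⟨a1, a2, a3, a4, a5⟩ := hw
                refine ⟨j'', p'', v'', rfl, a3, ?_⟩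
                rcases a5 with ⟨rfl, rfl, -⟩ | a5
                · exact hab
                · exact ab_trans hc hp hp' hab a5
          obtain ⟨j'', p'', v'', rfl, b1, b2⟩ := h3
          constructor
          · intro h4
            exfalso
            rcases ha.inn x hx with h5 | ⟨v1, h5⟩
            · rw [h5] at h4
              cases h4
            · rw [h5] at h4
              have h6 := Option.some.inj h4
              rw [Prod.mk.injEq, Prod.mk.injEq] at h6
              obtain ⟨rfl, rfl, -⟩ := h6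
              exact ab_irr hc hp b2
          · intro h4
            exfalso
            have h6 : (some (j'', p'', v'') : St) = none := h4.trans h2
            cases h6
        · have h2 : dg (g0 SC) none B x = g0 SC x := if_neg hx
          have h6 : g x = dg (g0 SC) none B x := (ha.out x hx).trans h2.symm
          constructor
          · exact fun h => h.trans h6
          · exact fun h => h.trans h6.symm
      rw [h1]
      exact ih j' p' hp' _ _ (agr_dead hc hp' B) v' hv'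
    rw [flags hc hp ψ B b hψ hJ]
    constructor
    · rintro ⟨u, hu, h1⟩
      rcases u with _ | ⟨j', p', v'⟩
      · exact hu.elim
      · obtain ⟨a1, a2, a3, a4, a5⟩ := hu
        rcases a5 with ⟨rfl, rfl, hr⟩ | a5
        · exact Or.inr ⟨hr, v', a4, by rw [← ih j p hp g e ha v' a4]; exact h1⟩
        · exact Or.inl ⟨j', p', v', a3, a4, a5, by rw [← habove j' p' v' a3 a4 a5]; exact h1⟩
    · rintro (⟨j', p', v', a1, a2, a3, a4⟩ | ⟨hr, v', hv', h1⟩)
      · exact ⟨some (j', p', v'), ⟨hp, hv, a1, a2, Or.inr a3⟩, by rw [habove j' p' v' a1 a2 a3]; exact a4⟩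
      · exact ⟨some (j, p, v'), ⟨hp, hv, hp, hv', Or.inl ⟨rfl, rfl, hr⟩⟩,
          by rw [ih j p hp g e ha v' hv']; exact h1⟩
  induction ψ with
  | prop i =>
    intro _ B _ j p hp g e ha v hv
    rw [Bool.eq_iff_iff]
    simp only [tv, ce, decide_eq_true_eq]
    exact Iff.rfl
  | nom i =>
    intro _ B _ j p hp g e ha v hv
    rw [Bool.eq_iff_iff]
    simp only [tv, ce, decide_eq_true_eq]
    have h1 := plc_spec (fun c => c.2.1.2.2) hc.uN (fun Z m s hs => hs.nn) hp i hv
    constructor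
    · intro h2
      exact (h1.1 h2.symm).symm
    · intro h2
      exact (h1.2 h2.symm).symm
  | var x =>
    intro _ B _ j p hp g e ha v hv
    rw [Bool.eq_iff_iff]
    simp only [tv, ce, decide_eq_true_eq]
    exact ha.loc x v hv
  | app b φ ih =>
    intro hψ B hN j p hp g e ha v hv
    exact congrArg (𝔅.ev b) (funext fun i => ih i (hψ i) B (hN i) j p hp g e ha v hv)
  | dia φ ih =>
    intro hψ B hN j p hp g e ha v hv
    rw [Bool.eq_iff_iff]
    simp only [tv, ce, decide_eq_true_eq]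
    exact key φ hψ B hN (ih hψ B (hc.needJ φ B hψ hN)) j p hp g e ha v hv true
  | box φ ih =>
    intro hψ B hN j p hp g e ha v hv
    rw [Bool.eq_iff_iff]
    simp only [tv, ce, decide_eq_true_eq]
    have h1 := key φ hψ B hN (ih hψ B (hc.needJ φ B hψ hN)) j p hp g e ha v hv false
    constructor
    · intro h2
      constructor
      · intro h3
        obtain ⟨u, hu, h4⟩ := h1.2 (Or.inl h3)
        have h5 := h2 u hu
        rw [h4] at h5
        exact Bool.noConfusion h5
      · intro hr v' hv'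
        by_contra h3
        rw [Bool.not_eq_true] at h3
        obtain ⟨u, hu, h4⟩ := h1.2 (Or.inr ⟨hr, v', hv', h3⟩)
        have h5 := h2 u hu
        rw [h4] at h5
        exact Bool.noConfusion h5
    · rintro ⟨h2, h3⟩ u hu
      by_contra h4
      rw [Bool.not_eq_true] at h4
      rcases h1.1 ⟨u, hu, h4⟩ with h5 | ⟨hr, v', hv', h5⟩
      · exact h2 h5
      · rw [h3 hr v' hv'] at h5
        exact Bool.noConfusion h5
  | bind x φ ih =>
    intro hψ B hN j p hp g e ha v hv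
    refine ih hψ (x :: B) hN j p hp (Function.update g x (some (j, p, v)))
      (Function.update e x v) ⟨?_, ?_, ?_⟩ v hv
    · intro y hy
      rw [List.mem_cons, not_or] at hy
      rw [Function.update_of_ne hy.1]
      exact ha.out y hy.2
    · intro y hy
      by_cases hyx : y = x
      · subst hyx
        rw [Function.update_self]
        exact Or.inr ⟨v, rfl⟩
      · rw [Function.update_of_ne hyx]
        exact ha.inn y ((List.mem_cons.1 hy).resolve_left hyx)
    · intro y v' hv'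
      by_cases hyx : y = x
      · subst hyx
        rw [Function.update_self, Function.update_self]
        constructor
        · intro h1
          have h2 := Option.some.inj h1
          rw [Prod.mk.injEq, Prod.mk.injEq] at h2
          exact h2.2.2
        · rintro rfl
          rfl
      · rw [Function.update_of_ne hyx, Function.update_of_ne hyx]
        exact ha.loc y v' hv'
  | atNom i φ _ => intro h; exact h.elim
  | atVar i φ _ => intro h; exact h.elim

end

theorem c4 : C4 := by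
  intro 𝔅 bd J SC n φ v0 hφ hc
  refine ⟨MK 𝔅 bd J SC, g0 SC, some (0, [], v0), rr_trans hc, ?_⟩
  have hv : Va 𝔅 bd J SC 0 [] := hc.len
  have h1 := truth hc φ hφ [] hc.need 0 [] hv _ _ (agr_dead hc hv []) v0 hc.hv0
  have h2 : dg (g0 SC) none [] = g0 SC := by
    funext x
    exact if_neg (by simp)
  rw [h2] at h1
  rw [h1]
  exact hc.val

end Pool.Agent.Helper82.TRC
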