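import Pool.Agent.H75C.HY.TRG

set_option autoImplicit false
set_option synthInstance.maxSize 4000

/-!
# Sizes of the data (statement D7)
-/

namespace Pool.Agent.Helper82.TRD

open Pool.Agent.NPC Pool.Agent.H75C.HY Pool.Agent.H75C.HY.TR

theorem sz_prod {α β : Type} [TEnc α] [TEnc β] (p : α × β) : sz p = sz p.1 + sz p.2 + 1 := by
  obtain ⟨a, b⟩ := p
  exact sz_pair a b

theorem len_le {α : Type} [TEnc α] (l : List α) : l.length ≤ sz l := by
  induction l with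
  | nil => exact Nat.zero_le _
  | cons a l ih =>
    rw [sz_list_cons, List.length_cons]
    have := sz_pos a
    omega

theorem sz_lt (v L : ℕ) (h : v ≤ L) : sz v ≤ 4 * L + 1 := (sz_nat_le' v).trans (by omega)

theorem sz_snd {w : List Tok} {x : ℕ} (h : x ∈ w.map Prod.snd) : sz x ≤ sz w := by
  rw [List.mem_map] at h
  obtain ⟨t, ht, rfl⟩ := h
  have h1 := sz_le_of_mem ht
  rw [sz_prod t] at h1
  omega

theorem sz_list_le {α : Type} [TEnc α] (l : List α) (n B : ℕ) (hl : l.length ≤ n)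
    (h : ∀ a ∈ l, sz a ≤ B) : sz l ≤ n * (B + 1) + 1 :=
  (sz_le_length_mul l B h).trans (Nat.add_le_add_right (Nat.mul_le_mul_right _ hl) 1)

def kb (x : ℕ) : ℕ := 2 * (x * (x + 1) + 1) + 1
def lb (x : ℕ) : ℕ := x * (5 * x + 3) + 1
def cb (x : ℕ) : ℕ := 3 + ((4 * x + 1) + (lb x + lb x + 1) + 1 + lb x + 1) + 1
def zb (x : ℕ) : ℕ := x * (4 * x + 2) + 1
def fb (x : ℕ) : ℕ := x * (kb x + 5) + 1
def sb (x : ℕ) : ℕ := cb x + (zb x + fb x + 1) + 1

variable {w : List Tok} {L x : ℕ}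

theorem vk_le (hx : sz w + L ≤ x) {k : Key} (h : vk w k = true) : sz k ≤ kb x := by
  unfold vk at h
  simp only [Bool.and_eq_true, decide_eq_true_eq, List.all_eq_true] at h
  obtain ⟨⟨⟨h1, h2⟩, h3⟩, h4⟩ := h
  have hw := len_le w
  have e1 : sz k.1 ≤ x * (x + 1) + 1 :=
    sz_list_le k.1 x x (by omega) fun t ht => by
      have := sz_le_of_mem (h2 t ht)
      omega
  have e2 : sz k.2 ≤ x * (x + 1) + 1 :=
    sz_list_le k.2 x x (by omega) fun t ht => by
      have := sz_snd (h4 t ht)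
      omega
  rw [sz_prod]
  unfold kb
  omega

theorem vl_le (hx : sz w + L ≤ x) {l : List (ℕ × ℕ)} (h : vl w L l = true) : sz l ≤ lb x := by
  unfold vl at h
  simp only [Bool.and_eq_true, decide_eq_true_eq, List.all_eq_true] at h
  obtain ⟨h1, h2⟩ := h
  refine sz_list_le l x (5 * x + 2) (by omega) fun p hp => ?_
  have e1 := sz_snd (h2 p hp).1
  have e2 := sz_lt p.2 L (h2 p hp).2.le
  rw [sz_prod]
  omega

theorem vz_le (hx : sz w + L ≤ x) {Z : List ℕ} (h : vz L Z = true) : sz Z ≤ zb x := by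
  unfold vz at h
  simp only [Bool.and_eq_true, decide_eq_true_eq, List.all_eq_true] at h
  obtain ⟨h1, h2⟩ := h
  refine sz_list_le Z x (4 * x + 1) (by omega) fun z hz => ?_
  have e2 := sz_lt z L (h2 z hz).le
  omega

theorem vf_le (hx : sz w + L ≤ x) {m : Fls} (h : vf w L m = true) : sz m ≤ fb x := by
  unfold vf at h
  simp only [Bool.and_eq_true, decide_eq_true_eq, List.all_eq_true] at h
  obtain ⟨h1, h2⟩ := h
  refine sz_list_le m x (kb x + 4) (by omega) fun f hf => ?_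
  have e1 := vk_le hx (h2 f hf)
  have e2 := sz_bool_le f.2
  rw [sz_prod]
  omega

theorem vcl_le (hx : sz w + L ≤ x) {c : Cl} (h : vcl w L c = true) : sz c ≤ cb x := by
  unfold vcl at h
  simp only [Bool.and_eq_true, decide_eq_true_eq] at h
  obtain ⟨⟨⟨h1, h2⟩, h3⟩, h4⟩ := h
  have e1 := vl_le hx h2
  have e2 := vl_le hx h3
  have e3 := vl_le hx h4
  have e4 := sz_bool_le c.1
  have e5 : sz c.2.1.1 ≤ 4 * L + 1 := sz_lt (N c) L h1
  rw [sz_prod c, sz_prod c.2, sz_prod c.2.1, sz_prod c.2.1.2]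
  unfold cb
  omega

theorem vsp_le (hx : sz w + L ≤ x) {s : Sp} (h : vsp w L s = true) :
    sz s.1 ≤ cb x ∧ sz s.2.1 ≤ zb x ∧ sz s.2.2 ≤ fb x := by
  unfold vsp at h
  simp only [Bool.and_eq_true] at h
  exact ⟨vcl_le hx h.1.1, vz_le hx h.1.2, vf_le hx h.2⟩

/-- the bound -/
def tb (x : ℕ) : ℕ := (2 * ((x * (sb x + 1) + 1) + ((x * (kb x + 1) + 1) + (4 * x + 1) + 1) + 1) + 1) +
  (2 * ((3 + ((4 * x + 1) + (4 * x + 1) + 1) + 1) +
    (cb x + (zb x + (fb x + (4 * x + 1) + 1) + 1) + 1) + 1) + 1)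

open Polynomial in
theorem exists_poly : ∃ Q : Polynomial ℕ, ∀ x, Q.eval x = tb x := by
  let K : Polynomial ℕ := 2 * (X * (X + 1) + 1) + 1
  let Lb : Polynomial ℕ := X * (5 * X + 3) + 1
  let Cb : Polynomial ℕ := 3 + ((4 * X + 1) + (Lb + Lb + 1) + 1 + Lb + 1) + 1
  let Z : Polynomial ℕ := X * (4 * X + 2) + 1
  let F : Polynomial ℕ := X * (K + 5) + 1
  let S : Polynomial ℕ := Cb + (Z + F + 1) + 1
  refine ⟨(2 * ((X * (S + 1) + 1) + ((X * (K + 1) + 1) + (4 * X + 1) + 1) + 1) + 1) +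
    (2 * ((3 + ((4 * X + 1) + (4 * X + 1) + 1) + 1) +
      (Cb + (Z + (F + (4 * X + 1) + 1) + 1) + 1) + 1) + 1), fun x => ?_⟩
  simp only [K, Lb, Cb, Z, F, S, tb, sb, kb, lb, cb, zb, fb, eval_add, eval_mul, eval_X, eval_one,
    eval_ofNat]

theorem d7 : D7 := by
  obtain ⟨Q, hQ⟩ := exists_poly
  refine ⟨Q, fun w L => ⟨?_, ?_⟩⟩
  · intro SC J v0 h1 h2 h3 h4 h5
    rw [hQ]
    set x := sz w + L with hx
    have e1 : sz SC ≤ x * (sb x + 1) + 1 := sz_list_le SC x (sb x) (by omega) fun s hs => by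
      obtain ⟨a1, a2, a3⟩ := vsp_le (le_of_eq hx.symm) (h5 s hs)
      rw [sz_prod s, sz_prod s.2]
      unfold sb
      omega
    have e2 : sz J ≤ x * (kb x + 1) + 1 := sz_list_le J x (kb x) (by omega) fun k hk =>
      vk_le (le_of_eq hx.symm) (h4 k hk)
    have e3 := sz_lt v0 L h3.le
    rw [sz_pair, sz_pair]
    unfold tb
    omega
  · intro sel i u s u0 h1 h2 h3 h4
    rw [hQ]
    set x := sz w + L with hx
    obtain ⟨a1, a2, a3⟩ := vsp_le (le_of_eq hx.symm) h4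
    have e1 := sz_bool_le sel
    have e2 := sz_lt i L h1.le
    have e3 := sz_lt u L h2.le
    have e4 := sz_lt u0 L h3.le
    have e5 : sz (((sel, i, u), s.1, s.2.1, s.2.2, u0) : An) =
        sz (sel, i, u) + sz (s.1, s.2.1, s.2.2, u0) + 1 := sz_pair _ _
    have e6 : sz (sel, i, u) = sz sel + sz (i, u) + 1 := sz_pair _ _
    have e7 : sz (i, u) = sz i + sz u + 1 := sz_pair _ _
    have e8 : sz (s.1, s.2.1, s.2.2, u0) = sz s.1 + sz (s.2.1, s.2.2, u0) + 1 := sz_pair _ _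
    have e9 : sz (s.2.1, s.2.2, u0) = sz s.2.1 + sz (s.2.2, u0) + 1 := sz_pair _ _
    have e10 : sz (s.2.2, u0) = sz s.2.2 + sz u0 + 1 := sz_pair _ _
    unfold tb
    omega

end Pool.Agent.Helper82.TRD
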